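import Pool.Agent.H25.DP.Targets3
import Pool.Agent.H76.HK.EP

/-!
# Two dilations, module DN1: prime ideals of degree one in logarithmic windows
-/

set_option autoImplicit false

open Complex Filter Topology NumberField nonZeroDivisors

namespace Pool.Agent.H33.DP.DN1

open Pool.Agent.H25.DP Pool.Agent.H25 Pool.Agent.H76.HK

open ArithmeticFunction LSeries

/-! ### Logarithmic derivatives of Dirichlet convolutions -/

/-- multiplication by `log` -/
noncomputable def lg (f : ArithmeticFunction ℂ) : ArithmeticFunction ℂ :=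
  ⟨fun n => (Real.log n : ℂ) * f n, by simp⟩

theorem lg_apply (f : ArithmeticFunction ℂ) (n : ℕ) : lg f n = (Real.log n : ℂ) * f n := rfl

theorem lg_mul (f g : ArithmeticFunction ℂ) : lg (f * g) = lg f * g + f * lg g := by
  ext n
  rw [lg_apply, ArithmeticFunction.add_apply, ArithmeticFunction.mul_apply,
    ArithmeticFunction.mul_apply, ArithmeticFunction.mul_apply, Finset.mul_sum,
    ← Finset.sum_add_distrib]
  refine Finset.sum_congr rfl fun x hx => ?_
  rw [Nat.mem_divisorsAntidiagonal] at hx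
  have h1 : x.1 ≠ 0 := by rintro h; exact hx.2 (by rw [← hx.1, h, zero_mul])
  have h2 : x.2 ≠ 0 := by rintro h; exact hx.2 (by rw [← hx.1, h, mul_zero])
  have h3 : Real.log n = Real.log x.1 + Real.log x.2 := by
    rw [← hx.1]
    push_cast
    exact Real.log_mul (by exact_mod_cast h1) (by exact_mod_cast h2)
  rw [lg_apply, lg_apply, h3]
  push_cast
  ring

theorem lg_one : lg 1 = 0 := by
  ext n
  rw [lg_apply, ArithmeticFunction.one_apply, ArithmeticFunction.zero_apply]
  split_ifs with h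
  · subst h; simp
  · simp

/-- the arithmetic function of a sequence -/
noncomputable def ah (h : ℕ → ℂ) (h0 : h 0 = 0) : ArithmeticFunction ℂ := ⟨h, h0⟩

/-- the twisted von Mangoldt function -/
noncomputable def vh (h : ℕ → ℂ) : ArithmeticFunction ℂ := ⟨fun n => (vonMangoldt n : ℂ) * h n,
  by simp⟩

theorem lg_ah {h : ℕ → ℂ} (h0 : h 0 = 0) (hm : ∀ a b, h (a * b) = h a * h b) :
    lg (ah h h0) = vh h * ah h h0 := by
  ext n
  rw [lg_apply, ArithmeticFunction.mul_apply]
  change (Real.log n : ℂ) * h n = ∑ x ∈ n.divisorsAntidiagonal, (vonMangoldt x.1 : ℂ) * h x.1 * h x.2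
  have h1 : ∑ x ∈ n.divisorsAntidiagonal, (vonMangoldt x.1 : ℂ) * h x.1 * h x.2 =
      (∑ x ∈ n.divisorsAntidiagonal, (vonMangoldt x.1 : ℂ)) * h n := by
    rw [Finset.sum_mul]
    refine Finset.sum_congr rfl fun x hx => ?_
    rw [Nat.mem_divisorsAntidiagonal] at hx
    rw [← hx.1, hm]
    ring
  rw [h1, Nat.sum_divisorsAntidiagonal (fun i _ => (vonMangoldt i : ℂ)), ← Complex.ofReal_sum,
    vonMangoldt_sum]

theorem sumA {ι : Type} [DecidableEq ι] (s : Finset ι) (V : ι → ArithmeticFunction ℂ) (n : ℕ) :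
    (∑ j ∈ s, V j) n = ∑ j ∈ s, V j n := by
  induction s using Finset.induction_on with
  | empty => simp
  | insert a s ha ih =>
    rw [Finset.sum_insert ha, Finset.sum_insert ha, ArithmeticFunction.add_apply, ih]

theorem lg_prod {ι : Type} [DecidableEq ι] (s : Finset ι) (F : ι → ArithmeticFunction ℂ)
    (V : ι → ArithmeticFunction ℂ) (hF : ∀ j, lg (F j) = V j * F j) :
    lg (∏ j ∈ s, F j) = (∑ j ∈ s, V j) * ∏ j ∈ s, F j := by
  induction s using Finset.induction_on with
  | empty => rw [Finset.prod_empty, Finset.sum_empty, zero_mul, lg_one]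
  | insert a s ha ih =>
    rw [Finset.prod_insert ha, Finset.sum_insert ha, lg_mul, ih, hF]
    ring

theorem L_prod {ι : Type} [DecidableEq ι] (s : Finset ι) (F : ι → ArithmeticFunction ℂ) (z : ℂ)
    (hF : ∀ j, LSeriesSummable (fun n => F j n) z) :
    LSeriesSummable (fun n => (∏ j ∈ s, F j) n) z ∧
      LSeries (fun n => (∏ j ∈ s, F j) n) z = ∏ j ∈ s, LSeries (fun n => F j n) z := by
  induction s using Finset.induction_on with
  | empty =>
    rw [Finset.prod_empty, Finset.prod_empty, ArithmeticFunction.one_eq_delta, LSeries_delta]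
    refine ⟨?_, rfl⟩
    refine summable_of_ne_finset_zero (s := {1}) fun n hn => ?_
    rw [Finset.mem_singleton] at hn
    rw [LSeries.term_def]
    simp [LSeries.delta, hn]
  | insert a s ha ih =>
    rw [Finset.prod_insert ha, Finset.prod_insert ha]
    refine ⟨ArithmeticFunction.LSeriesSummable_mul (hF a) ih.1, ?_⟩
    rw [← ih.2]
    exact ArithmeticFunction.LSeries_mul' (hF a) ih.1

/-! ### Non-primes -/

theorem nonprime_bound : ∃ C : ℝ, 0 ≤ C ∧ ∀ s : Finset ℕ,
    ∑ m ∈ s.filter (fun m => ¬ m.Prime), vonMangoldt m / m ≤ C := by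
  have h := ArithmeticFunction.vonMangoldt.summable_residueClass_non_primes_div (q := 1) 0
  have h1 : ∀ n : ℕ, (if n.Prime then 0 else
      ArithmeticFunction.vonMangoldt.residueClass (0 : ZMod 1) n) / (n : ℝ) =
      if n.Prime then 0 else vonMangoldt n / n := by
    intro n
    have h2 : ArithmeticFunction.vonMangoldt.residueClass (0 : ZMod 1) n = vonMangoldt n := by
      rw [ArithmeticFunction.vonMangoldt.residueClass]
      refine Set.indicator_of_mem ?_ _
      exact Subsingleton.elim _ _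
    rw [h2]
    split_ifs <;> simp
  rw [summable_congr h1] at h
  have h0 : ∀ n : ℕ, 0 ≤ (if n.Prime then 0 else vonMangoldt n / (n : ℝ)) := by
    intro n
    split_ifs
    · exact le_rfl
    · exact div_nonneg vonMangoldt_nonneg (Nat.cast_nonneg n)
  refine ⟨∑' n : ℕ, (if n.Prime then 0 else vonMangoldt n / (n : ℝ)), tsum_nonneg h0,
    fun s => ?_⟩
  refine le_trans (le_of_eq ?_) (h.sum_le_tsum s fun n _ => h0 n)
  rw [Finset.sum_filter]
  refine Finset.sum_congr rfl fun n _ => ?_
  split_ifs <;> rfl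

/-! ### Counting ideals -/

section

variable (K : Type) [Field K] [NumberField K]

theorem cnt_sum (n : ℕ) : Nat.card {I : (Ideal (𝓞 K))⁰ // Ideal.absNorm (I : Ideal (𝓞 K)) ≤ n} =
    ∑ k ∈ Finset.Icc 1 n, cnt K k := by
  unfold cnt
  rw [← add_left_inj 1, ← Ideal.card_norm_le_eq_card_norm_le_add_one,
    show Finset.Icc 1 n = Finset.Ioc 0 n from Finset.Icc_succ_left_eq_Ioc _ _,
    show 1 = Nat.card {I : Ideal (𝓞 K) // Ideal.absNorm I = 0} by
      simp [Ideal.absNorm_eq_zero_iff],
    Finset.sum_Ioc_add_eq_sum_Icc (n.zero_le),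
    ← Finset.card_preimage_eq_sum_card_image_eq
      (fun k _ ↦ Ideal.finite_setOfPred_absNorm_eq k)]
  simp [Set.coe_eq_subtype]

theorem cnt_tendsto : ∃ κ : ℝ, 0 < κ ∧
    Tendsto (fun x : ℝ => (∑ n ∈ Finset.Icc 1 ⌊x⌋₊, (cnt K n : ℝ)) / x) atTop (𝓝 κ) := by
  refine ⟨dedekindZeta_residue K, dedekindZeta_residue_pos K, ?_⟩
  refine (NumberField.Ideal.tendsto_norm_le_div_atTop₀ K).congr' ?_
  filter_upwards [eventually_ge_atTop 0] with x hx
  congr 1
  rw [← Nat.cast_sum, ← cnt_sum K ⌊x⌋₊]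
  simp_rw [← Nat.le_floor_iff hx]

end

theorem dn1 (h0 : T_DN0) : T_DN1 := by
  classical
  intro K _ _ x₁ x₂ hx₁ hx
  obtain ⟨h, hz, h1, hm, hb, hL, hs⟩ := ep K
  set F : Fin (Module.finrank ℚ K) → ArithmeticFunction ℂ := fun j => ah (h j) (hz j) with hF
  set V : Fin (Module.finrank ℚ K) → ArithmeticFunction ℂ := fun j => vh (h j) with hV
  -- the convolution identity
  have hsumF : ∀ z : ℂ, 1 < z.re → ∀ j, LSeriesSummable (fun n => F j n) z := fun z hz' j =>
    LSeriesSummable_of_bounded_of_one_lt_re (m := 1) (fun n _ => hb j n) hz'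
  have hAL : ∀ z : ℂ, 1 < z.re → LSeries (fun n => (∏ j, F j) n) z = dedekindZeta K z := by
    intro z hz'
    rw [(L_prod Finset.univ F z (hsumF z hz')).2, hL z hz']
    refine Finset.prod_congr rfl fun j _ => ?_
    refine tsum_congr fun m => ?_
    rw [LSeries.term_def₀ (f := fun n => F j n) (hz j)]
    rfl
  have hAc : ∀ n : ℕ, n ≠ 0 → (∏ j, F j) n = (cnt K n : ℂ) := by
    intro n hn
    refine LSeries.eq_of_LSeries_eventually_eq (f := fun n => (∏ j, F j) n)
      (g := fun n => (cnt K n : ℂ)) ?_ ?_ ?_ hn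
    · refine lt_of_le_of_lt (LSeriesSummable.abscissaOfAbsConv_le
        (L_prod Finset.univ F 2 (hsumF 2 (by norm_num))).1) ?_
      exact EReal.coe_lt_top _
    · refine lt_of_le_of_lt (LSeriesSummable.abscissaOfAbsConv_le
        (dz_summable K (s := 2) (by norm_num))) ?_
      exact EReal.coe_lt_top _
    · filter_upwards [eventually_gt_atTop (1 : ℝ)] with x hx'
      exact hAL x (by simpa using hx')
  have hder := lg_prod Finset.univ F V fun j => lg_ah (hz j) (hm j)
  -- powers
  have hpow : ∀ j p k, h j (p ^ k) = h j p ^ k := by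
    intro j p k
    induction k with
    | zero => simp [h1 j]
    | succ k ih => rw [pow_succ, hm, ih, pow_succ]
  -- the coefficients of the logarithmic derivative
  have hval : ∀ m : ℕ, ∃ r : ℝ, 0 ≤ r ∧ (∑ j, V j) m = (r : ℂ) := by
    intro m
    have e1 : (∑ j, V j) m = (vonMangoldt m : ℂ) * ∑ j, h j m := by
      rw [sumA, Finset.mul_sum]
      rfl
    by_cases hΛ : vonMangoldt m = 0
    · exact ⟨0, le_rfl, by rw [e1, hΛ]; simp⟩
    · rw [← ne_eq, vonMangoldt_ne_zero_iff, isPrimePow_nat_iff] at hΛ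
      obtain ⟨p, k, hp, hk, rfl⟩ := hΛ
      refine ⟨vonMangoldt (p ^ k) * HK.spf K p k, mul_nonneg vonMangoldt_nonneg
        (Nat.cast_nonneg _), ?_⟩
      rw [e1, Finset.sum_congr rfl fun j _ => hpow j p k, hs p k hp hk]
      push_cast
      rfl
  choose L hL0 hLV using hval
  have hid : ∀ n : ℕ, 1 ≤ n → (cnt K n : ℝ) * Real.log n =
      ∑ q ∈ n.divisorsAntidiagonal, L q.1 * (cnt K q.2 : ℝ) := by
    intro n hn
    have e1 := congrArg (fun f : ArithmeticFunction ℂ => f n) hder
    rw [lg_apply, ArithmeticFunction.mul_apply, hAc n (by omega)] at e1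
    have e2 : ∑ q ∈ n.divisorsAntidiagonal, (∑ j, V j) q.1 * (∏ j, F j) q.2 =
        ((∑ q ∈ n.divisorsAntidiagonal, L q.1 * (cnt K q.2 : ℝ) : ℝ) : ℂ) := by
      push_cast
      refine Finset.sum_congr rfl fun q hq => ?_
      rw [Nat.mem_divisorsAntidiagonal] at hq
      rw [hLV, hAc q.2 (by rintro h; exact hq.2 (by rw [← hq.1, h, mul_zero]))]
    rw [e2] at e1
    have e3 : ((cnt K n : ℝ) * Real.log n : ℝ) =
        ∑ q ∈ n.divisorsAntidiagonal, L q.1 * (cnt K q.2 : ℝ) := by
      have : (((cnt K n : ℝ) * Real.log n : ℝ) : ℂ) =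
          ((∑ q ∈ n.divisorsAntidiagonal, L q.1 * (cnt K q.2 : ℝ) : ℝ) : ℂ) := by
        rw [← e1]
        push_cast
        ring
      exact_mod_cast this
    exact e3
  obtain ⟨κ, hκ, hκ'⟩ := cnt_tendsto K
  obtain ⟨c, T₁, hc, hT₁⟩ := h0 (fun n => (cnt K n : ℝ)) L κ hκ (fun n => Nat.cast_nonneg _) hL0
    hid hκ' x₁ x₂ hx₁ hx
  obtain ⟨C, hC0, hC⟩ := nonprime_bound
  -- primes and non-primes
  have hLp : ∀ p : ℕ, p.Prime → L p = HK.spf K p 1 * Real.log p := by
    intro p hp
    have e1 : ((L p : ℝ) : ℂ) = ((HK.spf K p 1 * Real.log p : ℝ) : ℂ) := by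
      rw [← hLV, sumA]
      have e2 : ∑ j, (V j) p = (vonMangoldt p : ℂ) * ∑ j, h j p ^ 1 := by
        rw [Finset.mul_sum]
        refine Finset.sum_congr rfl fun j _ => ?_
        rw [pow_one]
        rfl
      rw [e2, hs p 1 hp le_rfl, vonMangoldt_apply_prime hp]
      push_cast
      ring
    exact_mod_cast e1
  have hLb : ∀ m : ℕ, L m ≤ Module.finrank ℚ K * vonMangoldt m := by
    intro m
    have e1 : ‖((L m : ℝ) : ℂ)‖ ≤ Module.finrank ℚ K * vonMangoldt m := by
      rw [← hLV, sumA]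
      refine (norm_sum_le _ _).trans ?_
      have e2 : ∀ j ∈ (Finset.univ : Finset (Fin (Module.finrank ℚ K))),
          ‖(V j) m‖ ≤ vonMangoldt m := by
        intro j _
        have e3 : (V j) m = (vonMangoldt m : ℂ) * h j m := rfl
        rw [e3, norm_mul, Complex.norm_real, Real.norm_of_nonneg vonMangoldt_nonneg]
        calc vonMangoldt m * ‖h j m‖ ≤ vonMangoldt m * 1 :=
              mul_le_mul_of_nonneg_left (hb j m) vonMangoldt_nonneg
          _ = vonMangoldt m := mul_one _
      refine (Finset.sum_le_sum e2).trans (le_of_eq ?_)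
      rw [Finset.sum_const, Finset.card_univ, Fintype.card_fin, nsmul_eq_mul]
    rw [Complex.norm_real] at e1
    exact (le_abs_self _).trans e1
  have hlarge : ∀ᶠ T : ℝ in atTop, 2 * (Module.finrank ℚ K * C) / c ≤ Real.log T :=
    Real.tendsto_log_atTop.eventually_ge_atTop _
  obtain ⟨T₀, hT₀⟩ := eventually_atTop.1 (hlarge.and (eventually_ge_atTop T₁))
  refine ⟨c / 2, T₀, by positivity, fun T hT => ?_⟩
  obtain ⟨ha, hT'⟩ := hT₀ T hT
  have hmain := hT₁ T hT'
  set S := Finset.Ioc ⌊T ^ x₁⌋₊ ⌊T ^ x₂⌋₊ with hS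
  rw [← Finset.sum_filter_add_sum_filter_not S Nat.Prime] at hmain
  have hA : ∑ p ∈ S.filter Nat.Prime, L p / p =
      ∑ p ∈ S.filter Nat.Prime, (HK.spf K p 1 : ℝ) * Real.log p / p := by
    refine Finset.sum_congr rfl fun p hp => ?_
    rw [Finset.mem_filter] at hp
    rw [hLp p hp.2]
  have hB : ∑ m ∈ S.filter (fun m => ¬ m.Prime), L m / m ≤ Module.finrank ℚ K * C := by
    calc ∑ m ∈ S.filter (fun m => ¬ m.Prime), L m / m
        ≤ ∑ m ∈ S.filter (fun m => ¬ m.Prime), Module.finrank ℚ K * (vonMangoldt m / m) := by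
          refine Finset.sum_le_sum fun m _ => ?_
          rw [← mul_div_assoc]
          exact div_le_div_of_nonneg_right (hLb m) (Nat.cast_nonneg m)
      _ = Module.finrank ℚ K * ∑ m ∈ S.filter (fun m => ¬ m.Prime), vonMangoldt m / m := by
          rw [Finset.mul_sum]
      _ ≤ Module.finrank ℚ K * C := mul_le_mul_of_nonneg_left (hC S) (Nat.cast_nonneg _)
  rw [hA] at hmain
  have hD : Module.finrank ℚ K * C ≤ c / 2 * Real.log T := by
    rw [div_le_iff₀ hc] at ha
    linarith
  linarith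

end Pool.Agent.H33.DP.DN1
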