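import Pool.Agent.H31.DP.Targets
import Pool.Agent.H91.LF.Basic

/-!
# Row SQ of the board dpt_modules: the square of a twisted sum
-/

set_option autoImplicit false

open Finset

namespace Pool.Agent.H33.DP

open Pool.Agent.H31.DP
open Pool.Agent.H91.LF (lz lz_prime_mul)

theorem sq_ee_conj (x : ℝ) : (starRingEnd ℂ) (ee x) = ee (-x) := by
  unfold ee
  rw [← Complex.exp_conj]
  congr 1
  simp only [map_mul, Complex.conj_I, Complex.conj_ofReal, map_ofNat]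
  push_cast
  ring

theorem sq_ee_add (x y : ℝ) : ee (x + y) = ee x * ee y := by
  unfold ee
  rw [← Complex.exp_add]
  congr 1
  push_cast
  ring

theorem sq_FF {l : ℕ} (h : Fin l → ℕ) {p : ℕ} (hp : p.Prime) (n : ℤ) :
    FF h p ((p : ℤ) * n) = (-1) ^ l * FF h 1 n := by
  unfold FF
  have h1 : ∀ i : Fin l, lz ((p : ℤ) * n + (p : ℤ) * (h i : ℤ)) =
      (-1) * lz (n + ((1 : ℕ) : ℤ) * (h i : ℤ)) := by
    intro i
    rw [← mul_add, lz_prime_mul hp]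
    simp
  rw [Finset.prod_congr rfl (fun i _ => h1 i), Finset.prod_mul_distrib]
  simp

theorem pf_SQ : StatementSQ := by
  intro l h p M θ hp
  have hp0 : 0 < p := hp.pos
  have hpZ : (0 : ℤ) < (p : ℤ) := by exact_mod_cast hp0
  have hpR : (p : ℝ) ≠ 0 := by exact_mod_cast hp0.ne'
  set N := M / p with hN
  have hNM : p * N ≤ M := Nat.mul_div_le M p
  have hNiff : ∀ n : ℤ, (p : ℤ) * n ≤ M ↔ n ≤ N := by
    intro n
    have h1 : (N : ℤ) = (M : ℤ) / (p : ℤ) := by rw [hN]; push_cast; rfl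
    rw [h1, Int.le_ediv_iff_mul_le hpZ, mul_comm]
  -- the sum over the integers
  have hSg : Sg h N θ = ∑ n ∈ Finset.Icc (1 : ℤ) N, ((FF h 1 n : ℝ) : ℂ) * ee (n * θ) := by
    unfold Sg
    refine Finset.sum_bij' (fun n _ => (n : ℤ)) (fun n _ => n.toNat) ?_ ?_ ?_ ?_ ?_
    · intro n hn
      simp only [Finset.mem_Icc] at hn ⊢
      omega
    · intro n hn
      simp only [Finset.mem_Icc] at hn ⊢
      omega
    · intro n hn
      simp
    · intro n hn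
      simp only [Finset.mem_Icc] at hn
      simp only [Int.toNat_of_nonneg (show (0 : ℤ) ≤ n by omega)]
    · intro n hn
      simp
  have hL : ((‖Sg h N θ‖ ^ 2 : ℝ) : ℂ) = ∑ x ∈ Finset.Icc (1 : ℤ) N ×ˢ Finset.Icc (1 : ℤ) N,
      ee ((x.2 - x.1) * θ) * ((FF h 1 x.1 * FF h 1 x.2 : ℝ) : ℂ) := by
    have h1 : ((‖Sg h N θ‖ ^ 2 : ℝ) : ℂ) = (starRingEnd ℂ) (Sg h N θ) * Sg h N θ := by
      rw [mul_comm, Complex.mul_conj, Complex.normSq_eq_norm_sq]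
    rw [h1, hSg, map_sum, Finset.sum_mul_sum, ← Finset.sum_product']
    refine Finset.sum_congr rfl fun x _ => ?_
    rw [map_mul, Complex.conj_ofReal, sq_ee_conj]
    have h2 : ee ((x.2 - x.1) * θ) = ee (-(x.1 * θ)) * ee (x.2 * θ) := by
      rw [← sq_ee_add]
      congr 1
      ring
    rw [h2]
    push_cast
    ring
  rw [hL]
  have hR : ∀ s ∈ mul p M, ee (s * (θ / p)) *
      ((∑ y ∈ (IM M s).filter (fun y => (p : ℤ) ∣ y), FF h p y * FF h p (y + s) : ℝ) : ℂ) =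
      ∑ y ∈ (IM M s).filter (fun y => (p : ℤ) ∣ y), ee (s * (θ / p)) *
        ((FF h p y * FF h p (y + s) : ℝ) : ℂ) := by
    intro s _
    rw [Complex.ofReal_sum, Finset.mul_sum]
  rw [Finset.sum_congr rfl hR, Finset.sum_sigma']
  refine Finset.sum_bij' (fun x _ => ⟨(p : ℤ) * (x.2 - x.1), (p : ℤ) * x.1⟩)
    (fun z _ => (z.2 / p, (z.2 + z.1) / p)) ?_ ?_ ?_ ?_ ?_
  · intro x hx
    simp only [Finset.mem_product, Finset.mem_Icc] at hx
    obtain ⟨⟨h1, h2⟩, h3, h4⟩ := hx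
    have h5 := (hNiff x.1).2 h2
    have h6 := (hNiff x.2).2 h4
    have h7 : (p : ℤ) * 1 ≤ (p : ℤ) * x.1 := mul_le_mul_of_nonneg_left h1 hpZ.le
    have h8 : (p : ℤ) * 1 ≤ (p : ℤ) * x.2 := mul_le_mul_of_nonneg_left h3 hpZ.le
    have h9 : (p : ℤ) * (x.2 - x.1) = (p : ℤ) * x.2 - (p : ℤ) * x.1 := by ring
    simp only [Finset.mem_sigma, mul, IM, Finset.mem_filter, Finset.mem_Icc]
    refine ⟨⟨⟨by omega, by omega⟩, Dvd.intro _ rfl⟩, ⟨⟨by omega, by omega⟩, by omega, by omega⟩,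
      Dvd.intro _ rfl⟩
  · rintro ⟨s, y⟩ hz
    simp only [Finset.mem_sigma, mul, IM, Finset.mem_filter, Finset.mem_Icc] at hz
    obtain ⟨⟨⟨h1, h2⟩, h3⟩, ⟨⟨h4, h5⟩, h6, h7⟩, h8⟩ := hz
    obtain ⟨a, rfl⟩ := h8
    obtain ⟨b, rfl⟩ := h3
    have h9 : (p : ℤ) * a + (p : ℤ) * b = (p : ℤ) * (a + b) := by ring
    simp only [Finset.mem_product, Finset.mem_Icc]
    rw [h9, Int.mul_ediv_cancel_left _ hpZ.ne', Int.mul_ediv_cancel_left _ hpZ.ne']
    rw [h9] at h6 h7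
    refine ⟨⟨?_, (hNiff a).1 h5⟩, ?_, (hNiff (a + b)).1 h7⟩
    · by_contra hc
      have : (p : ℤ) * a ≤ (p : ℤ) * 0 := mul_le_mul_of_nonneg_left (by omega) hpZ.le
      omega
    · by_contra hc
      have : (p : ℤ) * (a + b) ≤ (p : ℤ) * 0 := mul_le_mul_of_nonneg_left (by omega) hpZ.le
      omega
  · intro x hx
    have h9 : (p : ℤ) * x.1 + (p : ℤ) * (x.2 - x.1) = (p : ℤ) * x.2 := by ring
    simp only [h9]
    rw [Int.mul_ediv_cancel_left _ hpZ.ne', Int.mul_ediv_cancel_left _ hpZ.ne']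
  · rintro ⟨s, y⟩ hz
    simp only [Finset.mem_sigma, mul, IM, Finset.mem_filter, Finset.mem_Icc] at hz
    obtain ⟨⟨⟨h1, h2⟩, h3⟩, ⟨⟨h4, h5⟩, h6, h7⟩, h8⟩ := hz
    obtain ⟨a, rfl⟩ := h8
    obtain ⟨b, rfl⟩ := h3
    have h9 : (p : ℤ) * a + (p : ℤ) * b = (p : ℤ) * (a + b) := by ring
    simp only [h9, Int.mul_ediv_cancel_left _ hpZ.ne']
    simp
  · intro x hx
    have h9 : (p : ℤ) * x.1 + (p : ℤ) * (x.2 - x.1) = (p : ℤ) * x.2 := by ring
    simp only [h9]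
    rw [sq_FF h hp, sq_FF h hp]
    have h1 : (((p : ℤ) * (x.2 - x.1) : ℤ) : ℝ) * (θ / p) = (x.2 - x.1) * θ := by
      push_cast
      field_simp
    rw [h1]
    congr 2
    have h2 : ((-1 : ℝ) ^ l) * ((-1) ^ l) = 1 := by
      rw [← mul_pow]
      simp
    linear_combination (-(FF h 1 x.1 * FF h 1 x.2)) * h2

end Pool.Agent.H33.DP
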