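import Pool.Agent.H25.DP.Targets3

/-!
# Two dilations, module DYD: from logarithmic windows to dyadic blocks
-/

set_option autoImplicit false

open Complex MeasureTheory Set Filter Topology

namespace Pool.Agent.H33.DP.DYD

open Pool.Agent.H25.DP

theorem small (y c ε : ℝ) (hc : 0 < c) (hε : 0 < ε) :
    ∀ᶠ T : ℝ in atTop, y * (y * Real.log T / Real.log 2 + 1) * T ^ (-ε) < c := by
  have h1 : Tendsto (fun T : ℝ => Real.log T / T ^ ε) atTop (𝓝 0) :=
    (isLittleO_log_rpow_atTop hε).tendsto_div_nhds_zero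
  have h2 : Tendsto (fun T : ℝ => T ^ (-ε)) atTop (𝓝 0) := tendsto_rpow_neg_atTop hε
  have h3 : Tendsto (fun T : ℝ => y * (y / Real.log 2) * (Real.log T / T ^ ε) + y * T ^ (-ε))
      atTop (𝓝 (y * (y / Real.log 2) * 0 + y * 0)) := (h1.const_mul _).add (h2.const_mul _)
  rw [mul_zero, mul_zero, add_zero] at h3
  have h4 := h3.eventually (gt_mem_nhds hc)
  filter_upwards [h4, eventually_gt_atTop 0] with T hT hT0
  have h5 : T ^ (-ε) = 1 / T ^ ε := by rw [Real.rpow_neg hT0.le, one_div]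
  have h6 : y * (y * Real.log T / Real.log 2 + 1) * T ^ (-ε) =
      y * (y / Real.log 2) * (Real.log T / T ^ ε) + y * T ^ (-ε) := by
    rw [h5]; ring
  rw [h6]
  exact hT

theorem dyd : T_DYD := by
  intro w hw hyp x₁ x₂ ε hx₁ hx hε
  set y₁ : ℝ := (2 * x₁ + x₂) / 3 with hy₁
  set y₂ : ℝ := (x₁ + 2 * x₂) / 3 with hy₂
  have e1 : x₁ < y₁ := by rw [hy₁]; linarith
  have e2 : y₁ < y₂ := by rw [hy₁, hy₂]; linarith
  have e3 : y₂ < x₂ := by rw [hy₂]; linarith
  have e0 : 0 < y₂ := by linarith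
  obtain ⟨c, T₁, hc, hT₁⟩ := hyp y₁ y₂ (by linarith) e2
  have h2 : ∀ᶠ T : ℝ in atTop, (2 : ℝ) ≤ T ^ (y₁ - x₁) :=
    (tendsto_rpow_atTop (by linarith)).eventually_ge_atTop 2
  obtain ⟨T₀, hT₀⟩ := eventually_atTop.1 ((small y₂ c ε hc hε).and
    (h2.and ((eventually_ge_atTop T₁).and (eventually_gt_atTop (1 : ℝ)))))
  refine ⟨T₀, fun T hT => ?_⟩
  obtain ⟨ha, hb, hd, hT1⟩ := hT₀ T hT
  have hT0 : 0 < T := by linarith
  have hlogT : 0 < Real.log T := Real.log_pos hT1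
  have hmain := hT₁ T hd
  set S := (Finset.Ioc ⌊T ^ y₁⌋₊ ⌊T ^ y₂⌋₊).filter Nat.Prime with hS
  by_contra hcon
  push Not at hcon
  set L := Nat.log 2 ⌊T ^ y₂⌋₊ with hL
  have hmem : ∀ p ∈ S, p.Prime ∧ T ^ y₁ < p ∧ (p : ℝ) ≤ T ^ y₂ := by
    intro p hp
    rw [hS, Finset.mem_filter, Finset.mem_Ioc] at hp
    refine ⟨hp.2, ?_, ?_⟩
    · exact (Nat.floor_lt (Real.rpow_nonneg hT0.le _)).1 hp.1.1
    · exact (Nat.le_floor_iff (Real.rpow_nonneg hT0.le _)).1 hp.1.2
  have hmaps : ∀ p ∈ S, Nat.log 2 p ∈ Finset.range (L + 1) := by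
    intro p hp
    rw [hS, Finset.mem_filter, Finset.mem_Ioc] at hp
    rw [Finset.mem_range, Nat.lt_succ_iff]
    exact Nat.log_mono_right hp.1.2
  have hfib : ∀ i ∈ Finset.range (L + 1), ∑ p ∈ S with Nat.log 2 p = i, w p / p ≤ T ^ (-ε) := by
    intro i _
    rcases (S.filter fun p => Nat.log 2 p = i).eq_empty_or_nonempty with he | ⟨p₀, hp₀⟩
    · rw [he, Finset.sum_empty]
      exact Real.rpow_nonneg hT0.le _
    · rw [Finset.mem_filter] at hp₀
      obtain ⟨hp₀1, hp₀2⟩ := hp₀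
      obtain ⟨g1, g2, g3⟩ := hmem p₀ hp₀1
      have g4 : 2 ^ i ≤ p₀ := by
        rw [← hp₀2]
        exact Nat.pow_log_le_self 2 g1.ne_zero
      have g5 : p₀ < 2 ^ (i + 1) := by
        rw [← hp₀2]
        exact Nat.lt_pow_succ_log_self (by norm_num) p₀
      have g6 : T ^ x₁ ≤ ((2 ^ i : ℕ) : ℝ) := by
        have k1 : T ^ y₁ = T ^ x₁ * T ^ (y₁ - x₁) := by
          rw [← Real.rpow_add hT0]
          congr 1
          ring
        have k2 : (p₀ : ℝ) < 2 * ((2 ^ i : ℕ) : ℝ) := by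
          have : p₀ < 2 * 2 ^ i := by rw [pow_succ] at g5; omega
          exact_mod_cast this
        have k3 : 0 < T ^ x₁ := Real.rpow_pos_of_pos hT0 _
        have k4 : T ^ x₁ * 2 ≤ T ^ y₁ := by
          rw [k1]
          exact mul_le_mul_of_nonneg_left hb k3.le
        linarith
      have g7 : ((2 ^ i : ℕ) : ℝ) ≤ T ^ x₂ := by
        calc ((2 ^ i : ℕ) : ℝ) ≤ p₀ := by exact_mod_cast g4
          _ ≤ T ^ y₂ := g3
          _ ≤ T ^ x₂ := Real.rpow_le_rpow_of_exponent_le hT1.le e3.le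
      refine le_trans ?_ (hcon (2 ^ i) g6 g7).le
      refine Finset.sum_le_sum_of_subset_of_nonneg ?_ fun p _ _ =>
        div_nonneg (hw p) (Nat.cast_nonneg p)
      intro p hp
      rw [Finset.mem_filter] at hp
      rw [Finset.mem_filter, Finset.mem_Ico]
      have l1 := (hmem p hp.1).1
      refine ⟨⟨?_, ?_⟩, l1⟩
      · rw [← hp.2]
        exact Nat.pow_log_le_self 2 l1.ne_zero
      · have := Nat.lt_pow_succ_log_self (b := 2) (by norm_num) p
        rw [hp.2, pow_succ] at this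
        omega
  have hsum : ∑ p ∈ S, w p / p ≤ (L + 1) * T ^ (-ε) := by
    rw [← Finset.sum_fiberwise_of_maps_to hmaps (fun p => w p / p)]
    calc _ ≤ ∑ _i ∈ Finset.range (L + 1), T ^ (-ε) := Finset.sum_le_sum hfib
      _ = (L + 1) * T ^ (-ε) := by
        rw [Finset.sum_const, Finset.card_range, nsmul_eq_mul]
        push_cast
        ring
  have hlog : ∑ p ∈ S, w p * Real.log p / p ≤ y₂ * Real.log T * ∑ p ∈ S, w p / p := by
    rw [Finset.mul_sum]
    refine Finset.sum_le_sum fun p hp => ?_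
    obtain ⟨l1, l2, l3⟩ := hmem p hp
    have l4 : (0 : ℝ) < p := by exact_mod_cast l1.pos
    have l5 : Real.log p ≤ y₂ * Real.log T := by
      rw [← Real.log_rpow hT0]
      exact Real.log_le_log l4 l3
    calc w p * Real.log p / p = Real.log p * (w p / p) := by ring
      _ ≤ y₂ * Real.log T * (w p / p) :=
        mul_le_mul_of_nonneg_right l5 (div_nonneg (hw p) l4.le)
  have hLle : (L : ℝ) ≤ y₂ * Real.log T / Real.log 2 := by
    have hlog2 : 0 < Real.log 2 := Real.log_pos (by norm_num)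
    rw [le_div_iff₀ hlog2, ← Real.log_rpow hT0, ← Real.log_pow]
    refine Real.log_le_log (by positivity) ?_
    have h1 : (1 : ℝ) ≤ T ^ y₂ := Real.one_le_rpow hT1.le e0.le
    have h3 : ⌊T ^ y₂⌋₊ ≠ 0 := by
      have := Nat.floor_pos.2 h1
      omega
    have h4 : 2 ^ L ≤ ⌊T ^ y₂⌋₊ := Nat.pow_log_le_self 2 h3
    calc (2 : ℝ) ^ L = ((2 ^ L : ℕ) : ℝ) := by push_cast; rfl
      _ ≤ (⌊T ^ y₂⌋₊ : ℝ) := by exact_mod_cast h4
      _ ≤ T ^ y₂ := Nat.floor_le (by linarith)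
  have hTε : 0 < T ^ (-ε) := Real.rpow_pos_of_pos hT0 _
  have hfin : c * Real.log T ≤
      (y₂ * (y₂ * Real.log T / Real.log 2 + 1) * T ^ (-ε)) * Real.log T := by
    calc c * Real.log T ≤ ∑ p ∈ S, w p * Real.log p / p := hmain
      _ ≤ y₂ * Real.log T * ∑ p ∈ S, w p / p := hlog
      _ ≤ y₂ * Real.log T * ((L + 1) * T ^ (-ε)) :=
        mul_le_mul_of_nonneg_left hsum (by positivity)
      _ ≤ y₂ * Real.log T * ((y₂ * Real.log T / Real.log 2 + 1) * T ^ (-ε)) := by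
        refine mul_le_mul_of_nonneg_left ?_ (by positivity)
        exact mul_le_mul_of_nonneg_right (by linarith) hTε.le
      _ = _ := by ring
  have := le_of_mul_le_mul_right hfin hlogT
  linarith

end Pool.Agent.H33.DP.DYD
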