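import Pool.Agent.H25.DP.Targets3

/-!
# Two dilations, module NC: near coincidences with a prime
-/

set_option autoImplicit false

open Complex MeasureTheory Set Filter Topology

namespace Pool.Agent.H33.DP.NC

open Pool.Agent.H25.DP

/-- different fractions with prime denominators are separated -/
theorem frac_sep {k p k' p' X : ℕ} (hk : k < p) (hk' : k' < p') (hp : p.Prime) (hp' : p'.Prime)
    (hk0 : 1 ≤ k) (hX : p < 2 * X) (hX' : p' < 2 * X)
    (hne : (k, p) ≠ (k', p')) :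
    1 / (4 * (X : ℝ) ^ 2) ≤ |(k : ℝ) / p - k' / p'| := by
  have hp0 : (0 : ℝ) < p := by exact_mod_cast hp.pos
  have hp0' : (0 : ℝ) < p' := by exact_mod_cast hp'.pos
  have h1 : (k : ℤ) * p' - k' * p ≠ 0 := by
    intro h
    have h2 : k * p' = k' * p := by
      have : (k : ℤ) * p' = k' * p := by linarith
      exact_mod_cast this
    have h3 : p ∣ k * p' := by rw [h2]; exact Dvd.intro_left k' rfl
    rcases hp.dvd_mul.1 h3 with h4 | h4
    · exact absurd (Nat.le_of_dvd hk0 h4) (by omega)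
    · have h5 : p = p' := (Nat.prime_dvd_prime_iff_eq hp hp').1 h4
      subst h5
      have h6 : k = k' := Nat.eq_of_mul_eq_mul_right hp.pos h2
      exact hne (by rw [h6])
  have h2 : (1 : ℝ) ≤ |(k : ℝ) * p' - k' * p| := by
    have h3 : (1 : ℤ) ≤ |(k : ℤ) * p' - k' * p| := Int.one_le_abs h1
    have h4 : ((|(k : ℤ) * p' - k' * p| : ℤ) : ℝ) = |(k : ℝ) * p' - k' * p| := by
      push_cast
      ring_nf
    rw [← h4]
    exact_mod_cast h3
  have h3 : (k : ℝ) / p - k' / p' = ((k : ℝ) * p' - k' * p) / (p * p') := by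
    field_simp
  rw [h3, abs_div, abs_of_pos (mul_pos hp0 hp0')]
  have hX0 : (0 : ℝ) < X := by
    have : 0 < X := by have := hp.pos; omega
    exact_mod_cast this
  have h4 : (p : ℝ) ≤ 2 * X := by exact_mod_cast hX.le
  have h5 : (p' : ℝ) ≤ 2 * X := by exact_mod_cast hX'.le
  have h6 : (p : ℝ) * p' ≤ 4 * (X : ℝ) ^ 2 := by
    calc (p : ℝ) * p' ≤ (2 * X) * (2 * X) := mul_le_mul h4 h5 hp0'.le (by positivity)
      _ = 4 * (X : ℝ) ^ 2 := by ring
  calc 1 / (4 * (X : ℝ) ^ 2) ≤ 1 / ((p : ℝ) * p') :=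
        one_div_le_one_div_of_le (mul_pos hp0 hp0') h6
    _ ≤ |(k : ℝ) * p' - k' * p| / (p * p') :=
        div_le_div_of_nonneg_right h2 (mul_pos hp0 hp0').le

open Classical in
theorem nc : T_NC := by
  intro r δ N X Y hr hN hδ hδ'
  set S := ((Finset.Ico 1 Y ×ˢ (Finset.Ico X (2 * X)).filter Nat.Prime).filter fun q : ℕ × ℕ =>
      |r * Real.log N + Real.log q.1 - Real.log q.2| ≤ δ) with hS
  rcases S.eq_empty_or_nonempty with he | ⟨q₀, hq₀⟩
  · rw [he]
    simp only [Finset.card_empty, Nat.cast_zero]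
    positivity
  -- the centre
  set c : ℝ := Real.exp (-(r * Real.log N)) with hc
  have hc0 : 0 < c := Real.exp_pos _
  have hN2 : (2 : ℝ) ≤ N := by exact_mod_cast hN
  have hlogN : Real.log 2 ≤ Real.log N := Real.log_le_log (by norm_num) hN2
  have hlog2 : 0 < Real.log 2 := Real.log_pos (by norm_num)
  have hc4 : c ≤ 1 / 4 := by
    have h1 : Real.log 4 ≤ r * Real.log N := by
      have h2 : Real.log 4 = 2 * Real.log 2 := by
        rw [show (4 : ℝ) = 2 ^ 2 by norm_num, Real.log_pow]; norm_num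
      rw [h2]
      exact mul_le_mul hr hlogN hlog2.le (by linarith)
    rw [hc, Real.exp_neg, one_div]
    refine inv_anti₀ (by norm_num) ?_
    calc (4 : ℝ) = Real.exp (Real.log 4) := (Real.exp_log (by norm_num)).symm
      _ ≤ _ := Real.exp_le_exp.2 h1
  have hmem : ∀ q ∈ S, 1 ≤ q.1 ∧ q.2.Prime ∧ X ≤ q.2 ∧ q.2 < 2 * X ∧
      |(q.1 : ℝ) / q.2 - c| ≤ 11 / 10 * (c * δ) := by
    intro q hq
    rw [hS, Finset.mem_filter, Finset.mem_product, Finset.mem_filter, Finset.mem_Ico,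
      Finset.mem_Ico] at hq
    obtain ⟨⟨⟨h1, -⟩, ⟨h2, h3⟩, h4⟩, h5⟩ := hq
    refine ⟨h1, h4, h2, h3, ?_⟩
    have hq1 : (0 : ℝ) < q.1 := by exact_mod_cast h1
    have hq2 : (0 : ℝ) < q.2 := by exact_mod_cast h4.pos
    set θ := r * Real.log N + Real.log q.1 - Real.log q.2 with hθ
    have h6 : (q.1 : ℝ) / q.2 = c * Real.exp θ := by
      rw [hc, ← Real.exp_add, hθ]
      rw [show -(r * Real.log N) + (r * Real.log N + Real.log q.1 - Real.log q.2) =
        Real.log q.1 - Real.log q.2 by ring, Real.exp_sub, Real.exp_log hq1, Real.exp_log hq2]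
    have h7 : |Real.exp θ - 1| ≤ 11 / 10 * δ := by
      have h8 : |θ| ≤ 1 / 10 := h5.trans hδ'
      have h9 := Real.abs_exp_sub_one_sub_id_le (x := θ) (h8.trans (by norm_num))
      have h10 : |Real.exp θ - 1| ≤ |Real.exp θ - 1 - θ| + |θ| := by
        have := abs_add_le (Real.exp θ - 1 - θ) θ
        simpa using this
      have h11 : θ ^ 2 ≤ 1 / 10 * δ := by
        rw [← sq_abs]
        have := abs_nonneg θ
        nlinarith
      linarith
    rw [h6, show c * Real.exp θ - c = c * (Real.exp θ - 1) by ring, abs_mul, abs_of_pos hc0]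
    calc c * |Real.exp θ - 1| ≤ c * (11 / 10 * δ) := mul_le_mul_of_nonneg_left h7 hc0.le
      _ = 11 / 10 * (c * δ) := by ring
  have hlt : ∀ q ∈ S, q.1 < q.2 := by
    intro q hq
    obtain ⟨h1, h2, h3, h4, h5⟩ := hmem q hq
    have hq2 : (0 : ℝ) < q.2 := by exact_mod_cast h2.pos
    have h6 : (q.1 : ℝ) / q.2 < 1 := by
      have h7 := (abs_le.1 h5).2
      have h8 : 11 / 10 * (c * δ) ≤ 11 / 10 * (1 / 4 * (1 / 10)) := by
        refine mul_le_mul_of_nonneg_left ?_ (by norm_num)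
        exact mul_le_mul hc4 hδ' hδ.le (by norm_num)
      linarith
    rw [div_lt_one hq2] at h6
    exact_mod_cast h6
  have hX0 : 0 < X := by
    obtain ⟨h1, h2, h3, h4, h5⟩ := hmem q₀ hq₀
    have := h2.pos
    omega
  have hX0' : (0 : ℝ) < X := by exact_mod_cast hX0
  -- the map to integers
  set A : ℝ := c - 11 / 10 * (c * δ) with hA
  set g : ℕ × ℕ → ℕ := fun q => ⌊((q.1 : ℝ) / q.2 - A) * (4 * (X : ℝ) ^ 2)⌋₊ with hg
  have hinj : Set.InjOn g (S : Set (ℕ × ℕ)) := by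
    intro q hq q' hq' he
    by_contra hne
    obtain ⟨h1, h2, h3, h4, h5⟩ := hmem q hq
    obtain ⟨h1', h2', h3', h4', h5'⟩ := hmem q' hq'
    have hsep := frac_sep (hlt q hq) (hlt q' hq') h2 h2' h1 h4 h4' (by
      intro h; exact hne h)
    have hx0 : 0 ≤ ((q.1 : ℝ) / q.2 - A) * (4 * (X : ℝ) ^ 2) := by
      have := (abs_le.1 h5).1
      refine mul_nonneg ?_ (by positivity)
      rw [hA]; linarith
    have hx0' : 0 ≤ ((q'.1 : ℝ) / q'.2 - A) * (4 * (X : ℝ) ^ 2) := by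
      have := (abs_le.1 h5').1
      refine mul_nonneg ?_ (by positivity)
      rw [hA]; linarith
    have he' : ⌊((q.1 : ℝ) / q.2 - A) * (4 * (X : ℝ) ^ 2)⌋₊ =
      ⌊((q'.1 : ℝ) / q'.2 - A) * (4 * (X : ℝ) ^ 2)⌋₊ := he
    have h6 := Nat.floor_le hx0
    have h7 := Nat.lt_floor_add_one (((q.1 : ℝ) / q.2 - A) * (4 * (X : ℝ) ^ 2))
    have h6' := Nat.floor_le hx0'
    have h7' := Nat.lt_floor_add_one (((q'.1 : ℝ) / q'.2 - A) * (4 * (X : ℝ) ^ 2))
    rw [he'] at h6 h7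
    have h8 : |((q.1 : ℝ) / q.2 - q'.1 / q'.2) * (4 * (X : ℝ) ^ 2)| < 1 := by
      rw [abs_lt]
      constructor <;> nlinarith
    rw [abs_mul, abs_of_pos (show (0 : ℝ) < 4 * (X : ℝ) ^ 2 by positivity)] at h8
    have h9 : 1 / (4 * (X : ℝ) ^ 2) * (4 * (X : ℝ) ^ 2) ≤
        |(q.1 : ℝ) / q.2 - q'.1 / q'.2| * (4 * (X : ℝ) ^ 2) :=
      mul_le_mul_of_nonneg_right hsep (by positivity)
    rw [one_div, inv_mul_cancel₀ (by positivity)] at h9
    linarith
  have hrange : ∀ q ∈ S, g q ∈ Finset.range (⌊11 / 5 * (c * δ) * (4 * (X : ℝ) ^ 2)⌋₊ + 1) := by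
    intro q hq
    obtain ⟨h1, h2, h3, h4, h5⟩ := hmem q hq
    rw [Finset.mem_range, Nat.lt_succ_iff]
    refine Nat.floor_le_floor ?_
    refine mul_le_mul_of_nonneg_right ?_ (by positivity)
    have := (abs_le.1 h5).2
    rw [hA]; linarith
  have hcard : S.card ≤ ⌊11 / 5 * (c * δ) * (4 * (X : ℝ) ^ 2)⌋₊ + 1 := by
    have := Finset.card_le_card_of_injOn g hrange hinj
    simpa using this
  have h1 : (S.card : ℝ) ≤ (⌊11 / 5 * (c * δ) * (4 * (X : ℝ) ^ 2)⌋₊ : ℝ) + 1 := by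
    exact_mod_cast hcard
  have h2 : (⌊11 / 5 * (c * δ) * (4 * (X : ℝ) ^ 2)⌋₊ : ℝ) ≤
      11 / 5 * (c * δ) * (4 * (X : ℝ) ^ 2) := Nat.floor_le (by positivity)
  have h3 : 11 / 5 * (c * δ) * (4 * (X : ℝ) ^ 2) ≤ 100 * δ * (X : ℝ) ^ 2 := by
    have h4 : 11 / 5 * (c * δ) * (4 * (X : ℝ) ^ 2) = (44 / 5 * c) * (δ * (X : ℝ) ^ 2) := by ring
    have h5 : 100 * δ * (X : ℝ) ^ 2 = 100 * (δ * (X : ℝ) ^ 2) := by ring
    rw [h4, h5]
    refine mul_le_mul_of_nonneg_right ?_ (by positivity)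
    linarith
  linarith

end Pool.Agent.H33.DP.NC
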