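import Pool.Agent.H25.DP.Targets2
import Pool.Agent.H32.PZ.VS
import Pool.Agent.H24.Sqf.VdC

/-!
# (V3) van der Corput's third derivative test
-/

set_option autoImplicit false

open Complex MeasureTheory Set

namespace Pool.Agent.H33.DP.V3

open Pool.Agent.H25.DL Pool.Agent.H23.GLH Pool.Agent.H25.DP
open Pool.Agent.H24.Sqf (e norm_e vdc_Ioc)

lemma sum_inv (n : ℕ) : ∑ d ∈ Finset.Ico 1 (n + 1), 1 / Real.sqrt (d : ℝ) ≤ 2 * Real.sqrt n := by
  induction n with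
  | zero => simp
  | succ n ih =>
    rw [Finset.sum_Ico_succ_top (by omega)]
    have h1 : Real.sqrt ((n + 1 : ℕ) : ℝ) ^ 2 = n + 1 := by
      rw [Real.sq_sqrt (by positivity)]; push_cast; ring
    have h2 : Real.sqrt (n : ℝ) ^ 2 = n := Real.sq_sqrt (by positivity)
    have h3 : 0 < Real.sqrt ((n + 1 : ℕ) : ℝ) := Real.sqrt_pos.2 (by positivity)
    have h4 : 0 ≤ Real.sqrt (n : ℝ) := Real.sqrt_nonneg _
    set x := Real.sqrt ((n + 1 : ℕ) : ℝ) with hx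
    set y := Real.sqrt (n : ℝ) with hy
    have h5 : 1 / x ≤ 2 * x - 2 * y := by
      rw [div_le_iff₀ h3]
      nlinarith [sq_nonneg (x - y)]
    linarith

lemma Sd (α C₁ : ℝ) (hC₁ : 0 < C₁)
    (hVS : ∀ (A B : ℤ) (f f' f'' : ℝ → ℝ) (lam : ℝ), 0 < lam → A ≤ B →
      (∀ x ∈ Icc (A : ℝ) B, HasDerivAt f (f' x) x) →
      (∀ x ∈ Icc (A : ℝ) B, HasDerivAt f' (f'' x) x) →
      (∀ x ∈ Icc (A : ℝ) B, lam ≤ f'' x ∧ f'' x ≤ α * lam) →
      ‖∑ n ∈ Finset.Icc A B, Pool.Agent.H28.MZ.ei (2 * Real.pi * f n)‖ ≤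
        C₁ * (((B : ℝ) - A + 1) * Real.sqrt lam + 1 / Real.sqrt lam))
    (M A B d : ℕ) (f f' f'' f''' : ℝ → ℝ) (lam : ℝ) (hM : 1 ≤ M) (hMA : M ≤ A) (hBM : B ≤ 2 * M)
    (hlam : 0 < lam) (hd : 1 ≤ d)
    (hf : ∀ x ∈ Icc (M : ℝ) (2 * M), HasDerivAt f (f' x) x)
    (hf' : ∀ x ∈ Icc (M : ℝ) (2 * M), HasDerivAt f' (f'' x) x)
    (hf'' : ∀ x ∈ Icc (M : ℝ) (2 * M), HasDerivAt f'' (f''' x) x)
    (hb : ∀ x ∈ Icc (M : ℝ) (2 * M), lam ≤ f''' x ∧ f''' x ≤ α * lam) :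
    ‖∑ n ∈ Finset.Ioc (A - 1) (B - 1 - d), e (f ((n + d : ℕ) : ℝ) - f n)‖ ≤
      C₁ * (M * Real.sqrt (lam * d) + 1 / Real.sqrt (lam * d)) := by
  have hdpos : (0 : ℝ) < d := by exact_mod_cast hd
  have hld : 0 < lam * d := by positivity
  rcases Nat.lt_or_ge (A - 1) (B - 1 - d) with hlt | hge
  swap
  · rw [Finset.Ioc_eq_empty (by omega)]
    simp only [Finset.sum_empty, norm_zero]
    positivity
  have hAB : (A : ℤ) ≤ (B : ℤ) - 1 - d := by omega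
  have hAle : (M : ℝ) ≤ A := by exact_mod_cast hMA
  have hBd : (((B : ℤ) - 1 - d : ℤ) : ℝ) + d ≤ 2 * M := by
    have : (B : ℤ) - 1 - d + d ≤ 2 * M := by omega
    exact_mod_cast this
  have hmem : ∀ x ∈ Icc (((A : ℤ) : ℤ) : ℝ) (((B : ℤ) - 1 - d : ℤ) : ℝ),
      x ∈ Icc (M : ℝ) (2 * M) ∧ x + d ∈ Icc (M : ℝ) (2 * M) := by
    intro x hx
    have h1 : (A : ℝ) ≤ x := by simpa using hx.1
    have h2 := hx.2
    refine ⟨⟨by linarith, by linarith⟩, ⟨by linarith, by linarith⟩⟩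
  have key := hVS (A : ℤ) ((B : ℤ) - 1 - d) (fun x => f (x + d) - f x)
    (fun x => f' (x + d) - f' x) (fun x => f'' (x + d) - f'' x) (lam * d) hld hAB
    (fun x hx => ((hf _ (hmem x hx).2).comp_add_const x d).sub (hf x (hmem x hx).1))
    (fun x hx => ((hf' _ (hmem x hx).2).comp_add_const x d).sub (hf' x (hmem x hx).1))
    (by
      intro x hx
      obtain ⟨hx1, hx2⟩ := hmem x hx
      have hsub : ∀ y ∈ Icc x (x + d), y ∈ Icc (M : ℝ) (2 * M) :=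
        fun y hy => ⟨hx1.1.trans hy.1, hy.2.trans hx2.2⟩
      obtain ⟨c, hc, hc'⟩ := exists_hasDerivAt_eq_slope f'' f''' (show x < x + d by linarith)
        (fun y hy => (hf'' y (hsub y hy)).continuousAt.continuousWithinAt)
        (fun y hy => hf'' y (hsub y (Ioo_subset_Icc_self hy)))
      have hcm := hb c (hsub c (Ioo_subset_Icc_self hc))
      have e1 : f'' (x + d) - f'' x = f''' c * d := by
        rw [hc']
        have : x + (d : ℝ) - x = d := by ring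
        rw [this]
        field_simp
      rw [e1]
      constructor
      · exact mul_le_mul_of_nonneg_right hcm.1 hdpos.le
      · calc f''' c * d ≤ (α * lam) * d := mul_le_mul_of_nonneg_right hcm.2 hdpos.le
          _ = α * (lam * d) := by ring)
  have hsum : ∑ n ∈ Finset.Ioc (A - 1) (B - 1 - d), e (f ((n + d : ℕ) : ℝ) - f n) =
      ∑ n ∈ Finset.Icc (A : ℤ) ((B : ℤ) - 1 - d),
        Pool.Agent.H28.MZ.ei (2 * Real.pi * (fun x : ℝ => f (x + d) - f x) n) := by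
    refine Finset.sum_nbij' (fun n : ℕ => (n : ℤ)) (fun z : ℤ => z.toNat) ?_ ?_ ?_ ?_ ?_
    · intro n hn
      simp only [Finset.mem_Ioc, Finset.mem_Icc] at *
      omega
    · intro z hz
      simp only [Finset.mem_Ioc, Finset.mem_Icc] at *
      omega
    · intro n hn
      simp
    · intro z hz
      simp only [Finset.mem_Icc] at hz
      omega
    · intro n hn
      simp only [e, Pool.Agent.H28.MZ.ei]
      push_cast
      rfl
  rw [hsum]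
  refine key.trans ?_
  have h1 : ((((B : ℤ) - 1 - d : ℤ) : ℝ) - (((A : ℤ) : ℤ) : ℝ) + 1) ≤ M := by
    have : (B : ℤ) - 1 - d - A + 1 ≤ M := by omega
    exact_mod_cast this
  have h2 : 0 ≤ Real.sqrt (lam * d) := Real.sqrt_nonneg _
  have h3 := mul_le_mul_of_nonneg_right h1 h2
  refine mul_le_mul_of_nonneg_left ?_ hC₁.le
  linarith

theorem v3 : T_V3 := by
  intro α hα
  obtain ⟨C₁, hC₁, hVS⟩ := Pool.Agent.H32.PZ.vs α hα
  refine ⟨6 + 8 * C₁, by positivity, ?_⟩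
  intro M A B f f' f'' f''' lam hM hMA hAB hBM hlam hf hf' hf'' hb
  have hM0 : (1 : ℝ) ≤ M := by exact_mod_cast hM
  -- trivial bound
  have hes : ∀ x : ℝ, cexp ((2 * Real.pi * x : ℝ) * I) = e x := fun x => rfl
  simp only [hes]
  have htriv : ‖∑ n ∈ Finset.Ico A B, e (f n)‖ ≤ M := by
    calc _ ≤ ∑ n ∈ Finset.Ico A B, ‖e (f n)‖ := norm_sum_le _ _
      _ = ((B - A : ℕ) : ℝ) := by
        simp only [norm_e, Finset.sum_const, Nat.card_Ico, nsmul_eq_mul, mul_one]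
      _ ≤ M := by
        have : B - A ≤ M := by omega
        exact_mod_cast this
  -- powers of lam
  set m : ℝ := lam ^ (1 / 6 : ℝ) with hm
  have hm0 : 0 < m := Real.rpow_pos_of_pos hlam _
  have hm6 : m ^ 6 = lam := by
    rw [hm, ← Real.rpow_natCast, ← Real.rpow_mul hlam.le]
    norm_num
  have hmi : lam ^ (-(1 / 6) : ℝ) = 1 / m := by
    rw [Real.rpow_neg hlam.le, ← hm, one_div]
  have hms : Real.sqrt lam = m ^ 3 := by
    rw [← hm6, show m ^ 6 = (m ^ 3) ^ 2 by ring, Real.sqrt_sq (by positivity)]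
  rw [hmi, ← Real.sqrt_eq_rpow]
  set r : ℝ := Real.sqrt M with hr
  have hr0 : 0 < r := Real.sqrt_pos.2 (by linarith)
  have hr2 : r ^ 2 = M := Real.sq_sqrt (by linarith)
  have hX0 : 0 ≤ r * (1 / m) := by positivity
  have hMm0 : 0 ≤ (M : ℝ) * m := by positivity
  rcases le_or_gt 1 m with hm1 | hm1
  · have h1 : (M : ℝ) ≤ M * m := by nlinarith
    have h2 : (M : ℝ) * m ≤ (6 + 8 * C₁) * (M * m + r * (1 / m)) := by nlinarith
    linarith
  -- choice of H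
  obtain ⟨H, hH1, hH2⟩ : ∃ H : ℕ, 1 / m ^ 2 ≤ H ∧ (H : ℝ) ≤ 2 / m ^ 2 := by
    refine ⟨⌈1 / m ^ 2⌉₊, Nat.le_ceil _, ?_⟩
    have h1 := (Nat.ceil_lt_add_one (show 0 ≤ 1 / m ^ 2 by positivity)).le
    have h2 : 1 ≤ 1 / m ^ 2 := by
      rw [le_div_iff₀ (by positivity)]
      nlinarith
    calc (⌈1 / m ^ 2⌉₊ : ℝ) ≤ 1 / m ^ 2 + 1 := h1
      _ ≤ 2 / m ^ 2 := by
        have : 2 / m ^ 2 = 1 / m ^ 2 + 1 / m ^ 2 := by ring
        linarith
  have hHpos : 0 < H := by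
    have h1 : 0 < 1 / m ^ 2 := by positivity
    have h2 : (0 : ℝ) < H := lt_of_lt_of_le h1 hH1
    exact_mod_cast h2
  have hHR : (0 : ℝ) < H := by exact_mod_cast hHpos
  rcases Nat.lt_or_ge M H with hMH | hHM
  · -- M < H
    have h1 : (M : ℝ) ≤ 2 / m ^ 2 := by
      have : (M : ℝ) ≤ H := by exact_mod_cast hMH.le
      linarith
    have h2 : (r * m) ^ 2 ≤ 2 := by
      rw [mul_pow, hr2]
      rw [le_div_iff₀ (by positivity)] at h1
      exact h1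
    have h3 : r * m ≤ 2 := by nlinarith
    have h4 : (M : ℝ) ≤ 2 * (r * (1 / m)) := by
      have : 2 * (r * (1 / m)) = (2 * r) / m := by ring
      rw [this, le_div_iff₀ hm0, ← hr2]
      nlinarith
    nlinarith
  -- main case
  rcases Nat.eq_or_lt_of_le hAB with hEq | hltAB
  · rw [hEq]
    simp only [Finset.Ico_self, Finset.sum_empty, norm_zero]
    positivity
  have hIoc : Finset.Ico A B = Finset.Ioc (A - 1) (B - 1) := by
    ext n
    simp only [Finset.mem_Ico, Finset.mem_Ioc]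
    omega
  rw [hIoc]
  set S := ∑ n ∈ Finset.Ioc (A - 1) (B - 1), e (f n) with hS
  have hv := vdc_Ioc (fun n : ℕ => f n) (A - 1) (B - 1) H hHpos (by omega)
  rw [← hS] at hv
  have hB1 : (((B - 1 : ℕ) : ℝ) + 1) ≤ 2 * M := by
    have : B - 1 + 1 ≤ 2 * M := by omega
    exact_mod_cast this
  have hB0 : (0 : ℝ) ≤ (((B - 1 : ℕ) : ℝ) + 1) := by positivity
  have hd : ∀ d ∈ Finset.Ico 1 H, ‖∑ n ∈ Finset.Ioc (A - 1) (B - 1 - d),
      e (f ((n + d : ℕ) : ℝ) - f n)‖ ≤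
      C₁ * (M * (m ^ 3 * Real.sqrt H)) + C₁ / m ^ 3 * (1 / Real.sqrt d) := by
    intro d hd
    rw [Finset.mem_Ico] at hd
    have h1 := Sd α C₁ hC₁ hVS M A B d f f' f'' f''' lam hM hMA hBM hlam hd.1 hf hf' hf'' hb
    rw [Real.sqrt_mul hlam.le, hms] at h1
    have hdpos : (0 : ℝ) < d := by exact_mod_cast hd.1
    have hsd : 0 < Real.sqrt d := Real.sqrt_pos.2 hdpos
    have hsH : Real.sqrt d ≤ Real.sqrt H := Real.sqrt_le_sqrt (by exact_mod_cast hd.2.le)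
    have e1 : C₁ * (M * (m ^ 3 * Real.sqrt d) + 1 / (m ^ 3 * Real.sqrt d)) =
        C₁ * (M * (m ^ 3 * Real.sqrt d)) + C₁ / m ^ 3 * (1 / Real.sqrt d) := by
      field_simp
    rw [e1] at h1
    refine h1.trans ?_
    have : C₁ * (M * (m ^ 3 * Real.sqrt d)) ≤ C₁ * (M * (m ^ 3 * Real.sqrt H)) := by
      gcongr
    linarith
  set s : ℝ := Real.sqrt H with hs
  have hs0 : 0 < s := Real.sqrt_pos.2 hHR
  have hs2 : s ^ 2 = H := Real.sq_sqrt hHR.le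
  have hsumd : ∑ d ∈ Finset.Ico 1 H, ‖∑ n ∈ Finset.Ioc (A - 1) (B - 1 - d),
      e (f ((n + d : ℕ) : ℝ) - f n)‖ ≤ C₁ * (M * (m ^ 3 * s)) * s ^ 2 + C₁ / m ^ 3 * (2 * s) := by
    refine (Finset.sum_le_sum hd).trans ?_
    rw [Finset.sum_add_distrib, Finset.sum_const, Nat.card_Ico, nsmul_eq_mul, ← Finset.mul_sum]
    have h1 : ((H - 1 : ℕ) : ℝ) ≤ s ^ 2 := by
      rw [hs2]
      exact_mod_cast Nat.sub_le H 1
    have h2 : ∑ d ∈ Finset.Ico 1 H, 1 / Real.sqrt (d : ℝ) ≤ 2 * s := by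
      obtain ⟨n, rfl⟩ : ∃ n, H = n + 1 := ⟨H - 1, by omega⟩
      refine (sum_inv n).trans ?_
      have : Real.sqrt (n : ℝ) ≤ s := Real.sqrt_le_sqrt (by push_cast; linarith)
      linarith
    have h3 : 0 ≤ C₁ * (M * (m ^ 3 * s)) := by positivity
    have h4 : 0 ≤ C₁ / m ^ 3 := by positivity
    have h5 := mul_le_mul_of_nonneg_right h1 h3
    have h6 := mul_le_mul_of_nonneg_left h2 h4
    linarith
  have hsq : s ^ 2 * ‖S‖ ^ 2 ≤
      2 * M * (2 * M + 2 * (C₁ * (M * (m ^ 3 * s)) * s ^ 2 + C₁ / m ^ 3 * (2 * s))) := by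
    rw [hs2]
    refine hv.trans ?_
    have h0 : 0 ≤ ∑ d ∈ Finset.Ico 1 H, ‖∑ n ∈ Finset.Ioc (A - 1) (B - 1 - d),
      e (f ((n + d : ℕ) : ℝ) - f n)‖ := Finset.sum_nonneg fun _ _ => norm_nonneg _
    refine mul_le_mul hB1 ?_ ?_ (by positivity)
    · rw [← hs2]
      linarith
    · linarith
  -- sizes of s
  have hsm1 : 1 ≤ m * s := by
    have h1 : 1 ≤ (m * s) ^ 2 := by
      rw [mul_pow, hs2]
      rw [div_le_iff₀ (by positivity)] at hH1
      linarith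
    have : 0 ≤ m * s := by positivity
    nlinarith
  have hsm2 : m * s ≤ 2 := by
    have h1 : (m * s) ^ 2 ≤ 2 := by
      rw [mul_pow, hs2]
      rw [le_div_iff₀ (by positivity)] at hH2
      linarith
    have : 0 ≤ m * s := by positivity
    nlinarith
  set q : ℝ := ‖S‖ with hq
  have hq0 : 0 ≤ q := norm_nonneg _
  have hgoal2 : q ^ 2 ≤ (4 + 8 * C₁) * (M ^ 2 * m ^ 2 + M / m ^ 2) := by
    have h1 : q ^ 2 ≤ 4 * M ^ 2 / s ^ 2 + 4 * C₁ * M ^ 2 * (m ^ 3 * s) +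
        8 * C₁ * M / (m ^ 3 * s) := by
      have e1 : 4 * (M : ℝ) ^ 2 / s ^ 2 + 4 * C₁ * M ^ 2 * (m ^ 3 * s) +
        8 * C₁ * M / (m ^ 3 * s) = (2 * M * (2 * M + 2 * (C₁ * (M * (m ^ 3 * s)) * s ^ 2 +
          C₁ / m ^ 3 * (2 * s)))) / s ^ 2 := by
        field_simp
        ring
      rw [e1, le_div_iff₀ (by positivity)]
      linarith
    have h2 : 4 * (M : ℝ) ^ 2 / s ^ 2 ≤ 4 * (M ^ 2 * m ^ 2) := by
      rw [div_le_iff₀ (by positivity)]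
      have : 1 ≤ (m * s) ^ 2 := by nlinarith
      have h4 : 0 ≤ 4 * (M : ℝ) ^ 2 := by positivity
      nlinarith
    have h3 : m ^ 3 * s ≤ 2 * m ^ 2 := by nlinarith [sq_nonneg m]
    have h4 : m ^ 2 ≤ m ^ 3 * s := by nlinarith [sq_nonneg m]
    have h5 : 4 * C₁ * (M : ℝ) ^ 2 * (m ^ 3 * s) ≤ 8 * C₁ * (M ^ 2 * m ^ 2) := by
      have := mul_le_mul_of_nonneg_left h3 (show 0 ≤ 4 * C₁ * (M : ℝ) ^ 2 by positivity)
      linarith
    have h6 : 8 * C₁ * (M : ℝ) / (m ^ 3 * s) ≤ 8 * C₁ * (M / m ^ 2) := by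
      have : 8 * C₁ * ((M : ℝ) / m ^ 2) = 8 * C₁ * M / m ^ 2 := by ring
      rw [this]
      exact div_le_div_of_nonneg_left (by positivity) (by positivity) h4
    have h7 : 0 ≤ (M : ℝ) ^ 2 * m ^ 2 := by positivity
    have h8 : 0 ≤ (M : ℝ) / m ^ 2 := by positivity
    nlinarith
  have hXsq : (M : ℝ) ^ 2 * m ^ 2 + M / m ^ 2 ≤ (M * m + r * (1 / m)) ^ 2 := by
    have e1 : ((M : ℝ) * m + r * (1 / m)) ^ 2 = M ^ 2 * m ^ 2 + r ^ 2 / m ^ 2 +
      2 * ((M * m) * (r * (1 / m))) := by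
      field_simp
      ring
    rw [e1, hr2]
    have : 0 ≤ ((M : ℝ) * m) * (r * (1 / m)) := mul_nonneg hMm0 hX0
    linarith
  refine abs_le_of_sq_le_sq' ?_ (by positivity) |>.2
  set X : ℝ := (M : ℝ) * m + r * (1 / m) with hX
  have hC2 : (4 + 8 * C₁) ≤ (6 + 8 * C₁) ^ 2 := by nlinarith
  have hX2 : 0 ≤ X ^ 2 := sq_nonneg _
  calc q ^ 2 ≤ (4 + 8 * C₁) * (M ^ 2 * m ^ 2 + M / m ^ 2) := hgoal2
    _ ≤ (4 + 8 * C₁) * X ^ 2 := mul_le_mul_of_nonneg_left hXsq (by positivity)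
    _ ≤ (6 + 8 * C₁) ^ 2 * X ^ 2 := mul_le_mul_of_nonneg_right hC2 hX2
    _ = ((6 + 8 * C₁) * X) ^ 2 := by ring

end Pool.Agent.H33.DP.V3
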