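import Pool.Agent.H25.DP.Targets

/-!
# (FIP) the general theorem for two dilations
-/

set_option autoImplicit false

open Complex MeasureTheory Set Filter

namespace Pool.Agent.H33.DP.FIP

open Pool.Agent.H25.DL Pool.Agent.H23.GLH Pool.Agent.H25.DP

lemma exists_T₀ (κ κ' ε : ℝ) (hκ : 0 < κ) (hκ' : κ' < κ) (hε : 0 < ε) :
    ∃ T₀ : ℝ, ∀ T : ℝ, T₀ ≤ T → 1 ≤ T ∧ 8 * Real.log T ≤ T ^ κ ∧ 2 ≤ T ^ (κ - κ') ∧
      4 ≤ T ^ (ε / 2) := by
  have h1 : ∀ᶠ T : ℝ in atTop, 1 ≤ T := eventually_ge_atTop 1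
  have h2 : ∀ᶠ T : ℝ in atTop, 8 * Real.log T ≤ T ^ κ := by
    have h := (isLittleO_log_rpow_atTop hκ).bound (show (0 : ℝ) < 1 / 8 by norm_num)
    filter_upwards [h, h1] with T hT h1T
    have hpos : 0 ≤ T ^ κ := by positivity
    rw [Real.norm_of_nonneg (Real.log_nonneg h1T), Real.norm_of_nonneg hpos] at hT
    linarith
  have h3 : ∀ᶠ T : ℝ in atTop, 2 ≤ T ^ (κ - κ') :=
    (tendsto_rpow_atTop (by linarith)).eventually_ge_atTop 2
  have h4 : ∀ᶠ T : ℝ in atTop, 4 ≤ T ^ (ε / 2) :=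
    (tendsto_rpow_atTop (by linarith)).eventually_ge_atTop 4
  obtain ⟨T₀, hT₀⟩ := eventually_atTop.1 (((h1.and h2).and h3).and h4)
  exact ⟨T₀, fun T hT => ⟨(hT₀ T hT).1.1.1, (hT₀ T hT).1.1.2, (hT₀ T hT).1.2, (hT₀ T hT).2⟩⟩

lemma fr (F : Fam) (a b : ℝ) (hp : ∀ i, (F.p i).r = a ∨ (F.p i).r = b)
    (hq : ∀ j, (F.q j).r = a ∨ (F.q j).r = b) : ∀ l, (F.f l).r = a ∨ (F.f l).r = b := by
  rintro (x | x)
  · exact hp x.1
  · exact hq x.1

theorem fip (h1 : T_FI4) (h2 : T_AVB) (h3 : T_PH) : T_FIP := by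
  intro F a b μ κ ε hd hdμ hμa hμb hp hq hκ hκ1 hε
  have hμ : 0 < μ := hd.trans hdμ
  have hdm : 0 < F.d / (2 * μ) := by positivity
  have hκ0 : 0 < κ := hdm.trans hκ
  set κ' : ℝ := (F.d / (2 * μ) + κ) / 2 with hκ'def
  have hk1 : F.d / (2 * μ) < κ' := by rw [hκ'def]; linarith
  have hk2 : κ' < κ := by rw [hκ'def]; linarith
  have hk0 : 0 < κ' := hdm.trans hk1
  let w : ℝ → ℝ → ℝ → Prop := fun T H W => T ≤ H ∧ H + W ≤ 2 * T ∧ T ^ κ' ≤ W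
  have hwin : Win κ' w := fun T H W h => h
  obtain ⟨t₀, hPh⟩ := h3 F
  have hAVH : AVH F.f F.Y μ F.d w :=
    h2 F.Ix F.f F.Y F.d t₀ a b μ κ' w hPh hd hdμ hμa hμb (fr F a b hp hq) hk1
      (hk2.le.trans hκ1) hwin
  obtain ⟨T₁, hT₁⟩ := h1 F a b μ κ' (ε / 2) w hd hμ hμa hμb hp hq hk0 hwin hAVH (by linarith)
  obtain ⟨T₂, hT₂⟩ := exists_T₀ κ κ' ε hκ0 hk2 hε
  refine ⟨max T₁ T₂, fun T W hT hW1 hW2 => ?_⟩
  obtain ⟨hT1, hlog, hpow, hpe⟩ := hT₂ T ((le_max_right _ _).trans hT)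
  have hT0 : 0 < T := by linarith
  have hl0 : 0 ≤ Real.log T := Real.log_nonneg hT1
  have hWW : W / 2 ≤ W - 4 * Real.log T := by linarith
  have hTk : T ^ κ' ≤ W / 2 := by
    have e1 : T ^ κ = T ^ κ' * T ^ (κ - κ') := by
      rw [← Real.rpow_add hT0]; congr 1; ring
    have e2 : 0 ≤ T ^ κ' := by positivity
    have e3 : T ^ κ' * 2 ≤ T ^ κ' * T ^ (κ - κ') := mul_le_mul_of_nonneg_left hpow e2
    rw [← e1] at e3
    linarith
  have hw : w T (T + 2 * Real.log T) (W - 4 * Real.log T) := by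
    refine ⟨by linarith, by linarith, hTk.trans hWW⟩
  obtain ⟨Z, hZ, hZ'⟩ := hT₁ T ((le_max_left _ _).trans hT) _ _ hw
  refine ⟨Z, ?_, fun z hz => ?_⟩
  · refine le_trans ?_ hZ
    have hX : 0 ≤ T ^ (-(F.d / μ)) := by positivity
    have hW0 : 0 < W := lt_of_lt_of_le (by positivity) hW1
    have hm : min W (W ^ 2 * T ^ (-(F.d / μ))) / 4 ≤
        min (W - 4 * Real.log T) ((W - 4 * Real.log T) ^ 2 * T ^ (-(F.d / μ))) := by
      refine le_min ?_ ?_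
      · have := min_le_left W (W ^ 2 * T ^ (-(F.d / μ)))
        linarith
      · have e1 := min_le_right W (W ^ 2 * T ^ (-(F.d / μ)))
        have e2 : (W / 2) ^ 2 ≤ (W - 4 * Real.log T) ^ 2 := by
          refine pow_le_pow_left₀ (by linarith) hWW 2
        have e3 : (W / 2) ^ 2 * T ^ (-(F.d / μ)) ≤
            (W - 4 * Real.log T) ^ 2 * T ^ (-(F.d / μ)) := mul_le_mul_of_nonneg_right e2 hX
        nlinarith
    have hm0 : 0 ≤ min W (W ^ 2 * T ^ (-(F.d / μ))) := le_min hW0.le (by positivity)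
    have he : T ^ (-ε) * 4 ≤ T ^ (-(ε / 2)) := by
      have e1 : T ^ (-(ε / 2)) = T ^ (-ε) * T ^ (ε / 2) := by
        rw [← Real.rpow_add hT0]; congr 1; ring
      rw [e1]
      exact mul_le_mul_of_nonneg_left hpe (by positivity)
    calc T ^ (-ε) * min W (W ^ 2 * T ^ (-(F.d / μ)))
        = (T ^ (-ε) * 4) * (min W (W ^ 2 * T ^ (-(F.d / μ))) / 4) := by ring
      _ ≤ T ^ (-(ε / 2)) * (min (W - 4 * Real.log T)
            ((W - 4 * Real.log T) ^ 2 * T ^ (-(F.d / μ)))) :=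
          mul_le_mul he hm (by linarith) (by positivity)
  · obtain ⟨hz1, hz2, hz3⟩ := hZ' z hz
    exact ⟨by linarith, by linarith, hz3⟩

end Pool.Agent.H33.DP.FIP
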